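import Pool.Agent.Y223.G.Stm4
import Pool.Agent.Y929.G.Step

/-!
# Project G (wave 4): invariants of a finite group on a weighted blowup
-/

set_option autoImplicit false

namespace Pool.Agent.Y279.G

open Pool.Agent.Y223.G Pool.Agent.Y929.G

section abs

/-- Integrality over the invariants of a finite group. -/
theorem int_invG {A B G : Type} [CommRing A] [CommRing B] [Group G] [Finite G]
    (ρ : G →* (B ≃+* B)) (j : A →+* B) (hj : ∀ b, (∀ g, ρ g b = b) → ∃ a, j a = b) :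
    j.IsIntegral := by
  classical
  have _ : Fintype G := Fintype.ofFinite G
  intro b
  obtain ⟨P, hPd⟩ : ∃ P : Polynomial B,
      P = ∏ g : G, (Polynomial.X - Polynomial.C (ρ g b)) := ⟨_, rfl⟩
  have hP : P.Monic := by
    rw [hPd]
    exact Polynomial.monic_prod_of_monic _ _ fun g _ => Polynomial.monic_X_sub_C _
  have hmap : ∀ h : G, P.map (ρ h : B →+* B) = P := by
    intro h
    have h1 : P.map (ρ h : B →+* B) = ∏ g : G, (Polynomial.X - Polynomial.C (ρ (h * g) b)) := by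
      simp only [hPd, Polynomial.map_prod, Polynomial.map_sub, Polynomial.map_X, Polynomial.map_C]
      refine Finset.prod_congr rfl fun g _ => ?_
      rw [map_mul]
      rfl
    rw [h1, hPd]
    exact Fintype.prod_equiv (Equiv.mulLeft h) _ _ fun g => rfl
  have hcoeff : ∀ i, ∃ a, j a = P.coeff i := by
    intro i
    apply hj
    intro h
    have h2 := congrArg (fun p => Polynomial.coeff p i) (hmap h)
    simp only [Polynomial.coeff_map] at h2
    exact h2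
  have hlift : P ∈ Polynomial.lifts j := by
    rw [Polynomial.lifts_iff_coeff_lifts]
    intro i
    exact hcoeff i
  obtain ⟨q, hq, -, hqm⟩ := Polynomial.lifts_and_natDegree_eq_and_monic hlift hP
  refine ⟨q, hqm, ?_⟩
  rw [Polynomial.eval₂_eq_eval_map, hq, hPd, Polynomial.eval_prod]
  apply Finset.prod_eq_zero (Finset.mem_univ (1 : G))
  simp

end abs

section stp

variable {k K K' : Type} [CommRing k] [Field K] [Algebra k K] [Field K'] [Algebra k K']
  (ι : K' →ₐ[k] K) {G : Type} [Group G] (ρ : G →* (K ≃ₐ[k] K))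

lemma tl_mul (g h : G) (f : LP K) : tl (ρ (g * h)) f = tl (ρ g) (tl (ρ h) f) := by
  apply AddMonoidAlgebra.coeff_injective
  ext d
  rw [tl_coeff, tl_coeff, tl_coeff, map_mul]
  rfl

lemma tl_one (f : LP K) : tl (ρ 1) f = f := by
  apply AddMonoidAlgebra.coeff_injective
  ext d
  rw [tl_coeff, map_one]
  rfl

lemma tl_fixG (hι : ∀ x, (∀ g, ρ g x = x) ↔ ∃ y, ι y = x) (f : LP K) :
    (∀ g, tl (ρ g) f = f) ↔ ∃ g, Ph ι g = f := by
  constructor
  · intro h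
    have h1 : ∀ d, ∃ y, ι y = f.coeff d := by
      intro d
      rw [← hι]
      intro g
      rw [← tl_coeff, h]
    choose y hy using h1
    refine ⟨∑ d ∈ f.coeff.support, hm d (y d), ?_⟩
    rw [map_sum]
    conv_rhs => rw [eq_sum_hm f]
    refine Finset.sum_congr rfl fun d _ => ?_
    rw [Ph_hm, hy]
  · rintro ⟨f', rfl⟩ g
    apply AddMonoidAlgebra.coeff_injective
    ext d
    rw [tl_coeff, Ph_coeff]
    exact (hι _).2 ⟨_, rfl⟩ g

/-- the action on a stable subalgebra -/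
noncomputable def rG (B : Subalgebra k (LP K)) (hB : ∀ g, ∀ f ∈ B, tl (ρ g) f ∈ B) :
    G →* (B ≃+* B) where
  toFun g :=
    { toFun := fun f => ⟨tl (ρ g) f, hB g _ f.2⟩
      invFun := fun f => ⟨tl (ρ g⁻¹) f, hB g⁻¹ _ f.2⟩
      left_inv := fun f => Subtype.ext (by
        change tl (ρ g⁻¹) (tl (ρ g) (f : LP K)) = f
        rw [← tl_mul, inv_mul_cancel, tl_one])
      right_inv := fun f => Subtype.ext (by
        change tl (ρ g) (tl (ρ g⁻¹) (f : LP K)) = f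
        rw [← tl_mul, mul_inv_cancel, tl_one])
      map_mul' := fun _ _ => Subtype.ext (map_mul (tl (ρ g)) _ _)
      map_add' := fun _ _ => Subtype.ext (map_add (tl (ρ g)) _ _) }
  map_one' := RingEquiv.ext fun f => Subtype.ext (tl_one ρ _)
  map_mul' g h := RingEquiv.ext fun f => Subtype.ext (tl_mul ρ g h _)

lemma rG_coe (B : Subalgebra k (LP K)) (hB : ∀ g, ∀ f ∈ B, tl (ρ g) f ∈ B) (g : G) (f : B) :
    ((rG ρ B hB g f : B) : LP K) = tl (ρ g) f := rfl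

variable {ι ρ}

lemma fix_iffG (hι : ∀ x, (∀ g, ρ g x = x) ↔ ∃ y, ι y = x) (A : Subalgebra k (LP K'))
    (B : Subalgebra k (LP K)) (hAB : ∀ f, f ∈ A ↔ Ph ι f ∈ B)
    (hB : ∀ g, ∀ f ∈ B, tl (ρ g) f ∈ B) (b : B) :
    (∀ g, rG ρ B hB g b = b) ↔ ∃ a, rP ι A B (fun f h => (hAB f).1 h) a = b := by
  constructor
  · intro h
    have h1 : ∀ g, tl (ρ g) (b : LP K) = b := fun g =>
      congrArg (fun z : B => (z : LP K)) (h g)
    obtain ⟨f, hf⟩ := (tl_fixG ι ρ hι _).1 h1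
    have hfA : f ∈ A := (hAB f).2 (by rw [hf]; exact b.2)
    exact ⟨⟨f, hfA⟩, Subtype.ext hf⟩
  · rintro ⟨a, rfl⟩ g
    apply Subtype.ext
    rw [rG_coe]
    exact (tl_fixG ι ρ hι _).2 ⟨_, rfl⟩ g

theorem main_rgG [IsNoetherianRing k] [Finite G] (hD : S_DESCG)
    (hι : ∀ x, (∀ g, ρ g x = x) ↔ ∃ y, ι y = x) (R : Subalgebra k (LP K))
    (hR : Ch R) (hst : ∀ g, ∀ f ∈ R, tl (ρ g) f ∈ R)
    (hfa : ∀ g, (∀ f ∈ R, tl (ρ g) f = f) → g = 1)
    (hft : Algebra.FiniteType k (res ι R))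
    (hQ : ∀ Q : Ideal R, Q.IsPrime →
      (∃ (e : ℕ) (η : K) (he : hm e η ∈ R), 0 < e ∧ (⟨hm e η, he⟩ : R) ∉ Q) →
      (∀ g, (∀ f ∈ R, ∃ h : tl (ρ g) f - f ∈ R, (⟨tl (ρ g) f - f, h⟩ : R) ∈ Q) → g = 1) ∨
      ∃ (p : ℕ) (τ : G), p.Prime ∧ τ ^ p = 1 ∧
        (∀ g, (∀ f ∈ R, ∃ h : tl (ρ g) f - f ∈ R, (⟨tl (ρ g) f - f, h⟩ : R) ∈ Q) →
          g ∈ Subgroup.zpowers τ) ∧
        ∃ b ∈ R, ∀ c ∈ R, ∃ (s : LP K) (hs : s ∈ R), (⟨s, hs⟩ : R) ∉ Q ∧
          ∃ u ∈ R, s * (tl (ρ τ) c - c) = u * (tl (ρ τ) b - b))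
    (e : ℕ) (η' : K') (he : hm e η' ∈ res ι R) (he0 : 0 < e) (hη : η' ≠ 0) :
    IsRegularRing (loc (res ι R) (hm e η') he) := by
  obtain ⟨η, hηd⟩ : ∃ η, η = ι η' := ⟨_, rfl⟩
  have hη0 : η ≠ 0 := by
    rw [hηd]
    exact (map_ne_zero ι).2 hη
  have heR : hm e η ∈ R := by
    rw [hηd, ← Ph_hm]
    exact he
  have hτη : ∀ g, ρ g η = η := (hι η).2 ⟨η', hηd.symm⟩
  have hreg : IsRegularRing (loc R (hm e η) heR) := hR.rg e η heR he0 hη0
  have hAB : ∀ f, f ∈ loc (res ι R) (hm e η') he ↔ Ph ι f ∈ loc R (hm e η) heR := by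
    intro f
    rw [mem_loc, mem_loc]
    refine exists_congr fun n => ?_
    rw [mem_res, map_mul, map_pow, Ph_hm, ← hηd]
  have hBst : ∀ g, ∀ f ∈ loc R (hm e η) heR, tl (ρ g) f ∈ loc R (hm e η) heR := by
    rintro g f ⟨n, hn⟩
    refine ⟨n, ?_⟩
    have h1 := hst g _ hn
    rw [map_mul, map_pow, Y223.G.tl_hm, hτη] at h1
    exact h1
  obtain ⟨B, hBd⟩ : ∃ B, B = loc R (hm e η) heR := ⟨_, rfl⟩
  obtain ⟨A, hAd⟩ : ∃ A, A = loc (res ι R) (hm e η') he := ⟨_, rfl⟩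
  have hAft : Algebra.FiniteType k A := by
    rw [hAd]
    exact ft_loc hft he (isUnit_hm hη)
  have hRB : R ≤ B := by
    rw [hBd]
    exact le_loc R _ heR
  have hinvB : hm (-(e : ℤ)) η⁻¹ ∈ B := by
    rw [hBd]
    refine inv_mem_loc R _ _ heR ?_
    rw [hm_mul, add_neg_cancel, mul_inv_cancel₀ hη0, hm_one]
  have hBm : ∀ f ∈ B, ∃ n : ℕ, hm e η ^ n * f ∈ R := by
    intro f hf
    rw [hBd] at hf
    exact hf
  rw [← hAd]
  rw [← hAd, ← hBd] at hAB
  rw [← hBd] at hBst hreg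
  clear hAd hBd
  have hAn : IsNoetherianRing A := Algebra.FiniteType.isNoetherianRing k A
  have hfix := fix_iffG hι A B hAB hBst
  obtain ⟨j, hj⟩ : ∃ j, j = rP ι A B (fun f h => (hAB f).1 h) := ⟨_, rfl⟩
  rw [← hj] at hfix
  have hjinj : Function.Injective j := by
    rw [hj]
    exact rP_inj ι A B _
  refine hD B G (rG ρ B hBst) ?_ A j.toRingHom hjinj hfix ?_
  · intro g hg
    refine hfa g fun f hf => ?_
    exact congrArg (fun z : B => (z : LP K)) (hg ⟨f, hRB hf⟩)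
  · intro Q hQp
    have hunit : ∀ n : ℕ, (⟨hm e η, hRB heR⟩ : B) ^ n ∉ Q := by
      intro n hn
      have h1 := hQp.mem_of_pow_mem n hn
      have h2 : (⟨hm (-(e : ℤ)) η⁻¹, hinvB⟩ : B) * ⟨hm e η, hRB heR⟩ = 1 := by
        apply Subtype.ext
        change hm (-(e : ℤ)) η⁻¹ * hm e η = 1
        rw [hm_mul, neg_add_cancel, inv_mul_cancel₀ hη0, hm_one]
      have h3 := Q.mul_mem_left (⟨hm (-(e : ℤ)) η⁻¹, hinvB⟩ : B) h1
      rw [h2] at h3
      exact hQp.ne_top ((Ideal.eq_top_iff_one Q).2 h3)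
    let i : R →+* B := (Subalgebra.inclusion hRB).toRingHom
    have hQ0 : (Q.comap i).IsPrime := Ideal.comap_isPrime i Q
    have hine : ∀ g, (∀ b, rG ρ B hBst g b - b ∈ Q) →
        (∀ f ∈ R, ∃ h : tl (ρ g) f - f ∈ R, (⟨tl (ρ g) f - f, h⟩ : R) ∈ Q.comap i) := by
      intro g hg f hf
      refine ⟨R.sub_mem (hst g f hf) hf, ?_⟩
      rw [Ideal.mem_comap]
      exact hg ⟨f, hRB hf⟩
    rcases hQ (Q.comap i) hQ0 ⟨e, η, heR, he0, fun h => by
      refine hunit 1 ?_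
      rw [pow_one]
      exact h⟩ with h1 | ⟨p, τ, hp, hτp, hin, b, hb, hbc⟩
    · left
      intro g hg
      exact h1 g (hine g hg)
    · right
      refine ⟨p, τ, hp, hτp, fun g hg => hin g (hine g hg), ⟨b, hRB hb⟩, fun c => ?_⟩
      obtain ⟨n, hn⟩ := hBm c c.2
      obtain ⟨s, hs, hsQ, u, hu, huv⟩ := hbc _ hn
      refine ⟨⟨s, hRB hs⟩ * (⟨hm e η, hRB heR⟩ : B) ^ n, ?_, ⟨⟨u, hRB hu⟩, ?_⟩⟩
      · intro h
        rcases hQp.mem_or_mem h with h1 | h1
        · exact hsQ h1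
        · exact hunit n h1
      · apply Subtype.ext
        change s * hm e η ^ n * (tl (ρ τ) (c : LP K) - c) = (tl (ρ τ) b - b) * u
        rw [map_mul, map_pow, Y223.G.tl_hm, hτη] at huv
        rw [mul_comm _ u, ← huv]
        ring

end stp

/-- **The step for finite groups.** -/
theorem t_STEPG : S_DESCG → S_STEPG := by
  intro hD k K K' _ _ _ _ _ _ ι G _ _ ρ hι R hR hst hfa hQ
  classical
  have _ : Fintype G := Fintype.ofFinite G
  have hft : Algebra.FiniteType k (res ι R) := by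
    have hAB : ∀ f, f ∈ res ι R ↔ Ph ι f ∈ R := fun f => Iff.rfl
    refine ft_inv (rP ι (res ι R) R (fun f h => (hAB f).1 h)) (rP_inj ι _ _ _) ?_ hR.ft
    refine int_invG (rG ρ R hst) _ fun b hb => ?_
    exact (fix_iffG hι (res ι R) R hAB hst b).1 hb
  refine ⟨hft, ?_, ?_, ?_, ?_, ?_⟩
  · intro f hf d
    rw [mem_res] at hf ⊢
    rw [Ph_hm, ← Ph_coeff]
    exact hR.gr _ hf d
  · rw [mem_res, Ph_hm, map_one]
    exact hR.ss
  · intro d x hx
    rw [mem_res, Ph_hm] at hx ⊢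
    exact hR.cf d _ hx
  · obtain ⟨d, a, hd, ha, hda⟩ := hR.pos
    obtain ⟨N, hN⟩ : ∃ N, N = ∏ g : G, ρ g a := ⟨_, rfl⟩
    have hN0 : N ≠ 0 := by
      rw [hN]
      exact Finset.prod_ne_zero_iff.2 fun g _ => (map_ne_zero (ρ g)).2 ha
    have hτN : ∀ h, ρ h N = N := by
      intro h
      have h1 : ρ h N = ∏ g : G, ρ (h * g) a := by
        rw [hN, map_prod]
        refine Finset.prod_congr rfl fun g _ => ?_
        rw [map_mul]
        rfl
      rw [h1, hN]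
      exact Fintype.prod_equiv (Equiv.mulLeft h) _ _ fun g => rfl
    obtain ⟨y, hy⟩ := (hι N).1 hτN
    refine ⟨Fintype.card G * d, y, Nat.mul_pos Fintype.card_pos hd, ?_, ?_⟩
    · intro h
      rw [h, map_zero] at hy
      exact hN0 hy.symm
    · rw [mem_res, Ph_hm, hy, hN]
      have h2 : hm ((Fintype.card G * d : ℕ) : ℤ) (∏ g : G, ρ g a) =
          ∏ g : G, tl (ρ g) (hm (d : ℤ) a) := by
        simp only [Y223.G.tl_hm]
        rw [hm_prod]
        congr 1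
        rw [Finset.sum_const, Finset.card_univ, nsmul_eq_mul]
        push_cast
        rfl
      rw [h2]
      exact R.prod_mem fun g _ => hst g _ hda
  · intro e η' he he0 hη
    exact main_rgG hD hι R hR hst hfa hft hQ e η' he he0 hη

end Pool.Agent.Y279.G
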